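import Pool.Agent.H.MP_3fab4a.C

set_option autoImplicit false
open Set Filter Topology

namespace Pool.Agent.Results.MP_88e59f_gt.Example

/-- Property wD. -/
def WD (Z : Type) [TopologicalSpace Z] : Prop :=
  ∀ D : Set Z, D.Infinite → IsClosed D → IsDiscrete D → ∃ D' ⊆ D, D'.Infinite ∧ ∃ U : Z → Set Z,
    (∀ d ∈ D', IsOpen (U d) ∧ d ∈ U d) ∧
      ∀ z, ∃ W ∈ 𝓝 z, {d ∈ D' | (U d ∩ W).Nonempty}.Subsingleton

/-- Bisequential spaces. -/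
def Bisequential (X : Type) [TopologicalSpace X] : Prop :=
  ∀ (x : X) (F : Ultrafilter X), ↑F ≤ 𝓝 x →
    ∃ A : ℕ → Set X, Antitone A ∧ (∀ n, A n ∈ F) ∧ ∀ W ∈ 𝓝 x, ∃ n, A n ⊆ W

theorem result : ∃ (X : Type) (_ : TopologicalSpace X), CompactSpace X ∧ T2Space X ∧
    FrechetUrysohnSpace X ∧
    (∀ A : Set X, A.Nonempty → ∃ x ∈ A, ∃ U : Set X, IsOpen U ∧ U ∩ A = {x}) ∧
    (∀ Z : Set X, WD Z) ∧ ¬ Bisequential X := by
  refine ⟨OnePoint H.MP_3fab4a.Y, inferInstance, inferInstance, inferInstance,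
    H.MP_3fab4a.keyX.frechet, H.MP_3fab4a.scat, H.MP_3fab4a.keyX.wd, fun h => ?_⟩
  obtain ⟨F, h1, h2⟩ := H.MP_3fab4a.notbi
  obtain ⟨A, -, h3, h4⟩ := h _ F h1
  obtain ⟨W, h5, h6⟩ := h2 A h3
  obtain ⟨n, hn⟩ := h4 W h5
  exact h6 n hn

end Pool.Agent.Results.MP_88e59f_gt.Example
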